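import Mathlib

set_option autoImplicit false

namespace Pool.Agent.Results.MP_3f847c_gt.Counter

open Set Cardinal TopologicalSpace

def Scat {X : Type} [TopologicalSpace X] (f : X → ℝ) : Prop :=
  ∀ A : Set X, A.Nonempty → ∃ a ∈ A, ContinuousWithinAt f A a

noncomputable def wt (Z : Type) [TopologicalSpace Z] : Cardinal :=
  max ℵ₀ (sInf {c | ∃ B : Set (Set Z), IsTopologicalBasis B ∧ #B = c})

noncomputable def nw (Z : Type) [TopologicalSpace Z] : Cardinal :=
  max ℵ₀ (sInf {c | ∃ 𝒩 : Set (Set Z),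
    (∀ z U, IsOpen U → z ∈ U → ∃ N ∈ 𝒩, z ∈ N ∧ N ⊆ U) ∧ #𝒩 = c})

abbrev top : TopologicalSpace (ℝ → Bool) where
  IsOpen U := ∀ x ∈ U, ∃ C : Set ℝ, C.Countable ∧ {y | EqOn y x C} ⊆ U
  isOpen_univ _ _ := ⟨∅, countable_empty, subset_univ _⟩
  isOpen_inter U V h h' x hx := by
    obtain ⟨C, h1, h2⟩ := h x hx.1
    obtain ⟨D, h3, h4⟩ := h' x hx.2
    exact ⟨C ∪ D, h1.union h3, fun y hy =>
      ⟨h2 (hy.mono subset_union_left), h4 (hy.mono subset_union_right)⟩⟩
  isOpen_sUnion S h := fun x ⟨U, h1, h2⟩ =>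
    (h U h1 x h2).imp fun _ h3 => ⟨h3.1, h3.2.trans (subset_sUnion_of_mem h1)⟩

theorem result : ∃ (X : Type) (_ : TopologicalSpace X) (K : Set (X → ℝ)), T35Space X ∧
    (∀ f ∈ K, Scat f) ∧ IsCompact K ∧ Convex ℝ K ∧ nw X < wt K := by
  classical
  let K : Set ((ℝ → Bool) → ℝ) := {f | (∀ x, 0 ≤ f x) ∧ ∀ s : Finset _, ∑ x ∈ s, f x ≤ 1}
  let := top
  have hc (x : ℝ → Bool) {C : Set ℝ} (h : C.Countable) : IsClopen {y | EqOn y x C} :=
    ⟨⟨fun y hy => ⟨C, h, fun z hz hz' => hy (hz.symm.trans hz')⟩⟩,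
      fun y hy => ⟨C, h, fun z hz => hz.trans hy⟩⟩
  refine ⟨ℝ → Bool, top, K, ?_, fun f hf A hA => ?_, ?_, ?_, ?_⟩
  · have : T0Space (ℝ → Bool) := ⟨fun x y h => funext fun i =>
      (h.mem_open_iff (hc y (countable_singleton i)).2).2 (fun _ _ => rfl) rfl⟩
    have : CompletelyRegularSpace (ℝ → Bool) := .of_isTopologicalBasis_clopens
      (isTopologicalBasis_of_isOpen_of_nhds (fun _ h => h.2) fun x U hx hU =>
        let ⟨C, h1, h2⟩ := hU x hx
        ⟨_, hc x h1, fun _ _ => rfl, h2⟩)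
    exact {}
  · have h1 : (Function.support f).Countable :=
      (summable_of_sum_le hf.1 hf.2).countable_support
    have h2 (x : ℝ → Bool) : ∀ᶠ y in nhds x, y ≠ x → f y = 0 := by
      choose! g hg using fun y (h : y ≠ x) => Function.ne_iff.1 h
      exact Filter.mem_of_superset ((hc x (h1.image g)).2.mem_nhds fun _ _ => rfl)
        fun y hy h => by_contra fun h' => hg y h (hy ⟨y, h', rfl⟩)
    by_cases h3 : ∃ a ∈ A, f a = 0
    · obtain ⟨a, h4, h5⟩ := h3
      refine ⟨a, h4, (continuousAt_const.congr (f := fun _ => 0) ((h2 a).mono fun y hy => ?_)).continuousWithinAt⟩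
      by_cases h : y = a
      exacts [(h ▸ h5).symm, (hy h).symm]
    obtain ⟨a, h4⟩ := hA
    refine ⟨a, h4, (continuousWithinAt_const (b := f a)).congr_of_eventuallyEq ?_ rfl⟩
    filter_upwards [nhdsWithin_le_nhds (h2 a), self_mem_nhdsWithin] with y h5 h6
    exact congrArg f (by_contra fun h => h3 ⟨y, h6, h5 h⟩)
  · refine (isCompact_univ_pi fun _ => isCompact_Icc (a := (0 : ℝ)) (b := 1)).of_isClosed_subset ?_
      fun f hf x _ => ⟨hf.1 x, by simpa using hf.2 {x}⟩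
    simp only [K, ofPred_and, ofPred_forall]
    exact (isClosed_iInter fun x => isClosed_le continuous_const (continuous_apply x)).inter
      (isClosed_iInter fun s => isClosed_le (by fun_prop) continuous_const)
  · refine fun f hf g hg a b ha hb h => ⟨fun x => add_nonneg (mul_nonneg ha (hf.1 x))
      (mul_nonneg hb (hg.1 x)), fun s => ?_⟩
    simp only [Pi.add_apply, Pi.smul_apply, smul_eq_mul, Finset.sum_add_distrib, ← Finset.mul_sum]
    nlinarith [hf.2 s, hg.2 s]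
  refine lt_of_le_of_lt (b := 𝔠) (max_le aleph0_le_continuum (le_trans (csInf_le' ⟨range
    fun s : ℕ → ℝ × Bool => {y | ∀ n, y (s n).1 = (s n).2}, fun x U hU hx => ?_, rfl⟩)
      (mk_range_le.trans (by simp [mk_real])))) (lt_max_of_lt_right ?_)
  · obtain ⟨C, h1, h2⟩ := hU x hx
    obtain ⟨c, h3⟩ := (h1.insert 0).exists_eq_range (insert_nonempty _ _)
    refine ⟨_, ⟨fun n => (c n, x (c n)), rfl⟩, fun _ => rfl, fun y hy => h2 fun i hi => ?_⟩
    obtain ⟨n, rfl⟩ : i ∈ range c := h3 ▸ mem_insert_of_mem _ hi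
    exact hy n
  obtain ⟨B, h1, h2⟩ := csInf_mem (s := {c | ∃ B : Set (Set K), IsTopologicalBasis B ∧ #B = c})
    ⟨_, _, isTopologicalBasis_opens, rfl⟩
  have he (a : ℝ → Bool) : Pi.single a 1 ∈ K := ⟨fun x => by
    rw [Pi.single_apply]; positivity, fun s => by rw [Finset.sum_pi_single']; split_ifs <;> simp⟩
  choose N k1 k2 k3 using fun a => h1.exists_subset_of_mem_open (a := ⟨_, he a⟩)
    (u := (fun y : K => y.1 a) ⁻¹' Ioi 0) (by simp)
    (isOpen_Ioi.preimage ((continuous_apply a).comp continuous_subtype_val))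
  refine h2 ▸ lt_of_lt_of_le (by simpa [mk_real] using cantor 𝔠) (mk_le_of_injective
    (f := fun a => (⟨N a, k1 a⟩ : B)) fun a b h => by_contra fun h' => ?_)
  have := k3 b ((show N a = N b from congrArg Subtype.val h) ▸ k2 a)
  simp [Pi.single_eq_of_ne' h'] at this

end Pool.Agent.Results.MP_3f847c_gt.Counter
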